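import Mathlib
import Pool.Agent.H370R3.SphereTools

/-!
# A free action of a compact group with infinite Rokhlin dimension

The group `G = ∏ₙ {1, -1}` acts on `X = ∏ₙ Sⁿ` by the antipodal map in each coordinate. The action
is free. If the induced action on `C(X)` had Rokhlin dimension at most `d`, then the images of the
`n`-th coordinate character of `G`, `n = d + 1`, under the `d + 1` order zero maps would give
`d + 1` real functions on `X` without common zero which are odd in the `n`-th coordinate,
contradicting the Borsuk-Ulam theorem on `Sⁿ`.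
-/

set_option autoImplicit false

namespace Pool.Agent.Results.MP_cd8fef_an.FreeInfiniteRokhlin

open Filter Topology
open scoped BoundedContinuousFunction

noncomputable section

/-! ### definitions -/

/-- `Q`, together with `π`, is the sequence algebra `A_∞ = ℓ^∞(ℕ, A) / c₀(ℕ, A)`: `π` is a
surjective unital `*`-homomorphism with kernel `c₀(ℕ, A)`. -/
structure IsSequenceAlgebra {A Q : Type} [CStarAlgebra A] [CStarAlgebra Q]
    (π : (ℕ →ᵇ A) →⋆ₐ[ℂ] Q) : Prop where
  surjective : Function.Surjective π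
  ker (x : ℕ →ᵇ A) : π x = 0 ↔ Tendsto (fun n => ‖x n‖) atTop (𝓝 0)

/-- completely positive contractive order zero maps (the positive elements are the `star a * a`) -/
structure IsCPCOrderZero {B Q : Type} [CStarAlgebra B] [CStarAlgebra Q] (φ : B →ₗ[ℂ] Q) :
    Prop where
  completelyPositive (k : ℕ) (a : Fin k → B) (b : Fin k → Q) :
    ∃ c : Q, ∑ i, ∑ j, star (b i) * φ (star (a i) * a j) * b j = star c * c
  contractive (a : B) : ‖φ a‖ ≤ ‖a‖
  orderZero (a b : B) : star a * a * (star b * b) = 0 → φ (star a * a) * φ (star b * b) = 0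

section Action

variable (G X : Type) [Group G] [TopologicalSpace G] [IsTopologicalGroup G] [CompactSpace G]
  [TopologicalSpace X] [CompactSpace X] [MulAction G X] [ContinuousSMul G X]

variable {G X} in
/-- the action on `C(X)` induced by the action of `G` on `X`: `α_g(f)(x) = f(g⁻¹ x)` -/
def act (g : G) (f : C(X, ℂ)) : C(X, ℂ) := f.comp ⟨fun x => g⁻¹ • x, continuous_const_smul g⁻¹⟩

variable {G} in
/-- left translation on `C(G)` -/
def translate (g : G) (f : C(G, ℂ)) : C(G, ℂ) :=
  f.comp ⟨fun h => g⁻¹ * h, continuous_const.mul continuous_id⟩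

/-- The action of `G` on `C(X)` has Rokhlin dimension at most `d`. -/
def RokhlinDimLE (d : ℕ) : Prop :=
  ∃ (Q : Type) (_ : CStarAlgebra Q) (π : (ℕ →ᵇ C(X, ℂ)) →⋆ₐ[ℂ] Q) (α : G → Q → Q)
    (φ : Fin (d + 1) → C(G, ℂ) →ₗ[ℂ] Q),
    IsSequenceAlgebra π ∧
    -- `α` is the induced action
    (∀ (g : G) (x y : ℕ →ᵇ C(X, ℂ)), (∀ m, y m = act g (x m)) → α g (π x) = π y) ∧
    (∀ j, IsCPCOrderZero (φ j)) ∧
    -- the maps are equivariant
    (∀ j g f, α g (φ j f) = φ j (translate g f)) ∧
    -- the ranges are in the part where the action is continuous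
    (∀ j f, Continuous fun g => α g (φ j f)) ∧
    -- the ranges commute with `C(X)`
    (∀ j f (a : C(X, ℂ)), Commute (φ j f) (π (BoundedContinuousFunction.const ℕ a))) ∧
    ∑ j, φ j 1 = 1

end Action

/-! ### the core of the argument -/

section Core

variable {X : Type} [TopologicalSpace X] [CompactSpace X]

/-- composition with a continuous map -/
def swp (s : C(X, X)) (y : ℕ →ᵇ C(X, ℂ)) : ℕ →ᵇ C(X, ℂ) :=
  BoundedContinuousFunction.ofNormedAddCommGroup (fun m => (y m).comp s)
    continuous_of_discreteTopology ‖y‖ fun m => by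
      refine (ContinuousMap.norm_le _ (norm_nonneg _)).mpr fun x => ?_
      exact ((y m).norm_coe_le_norm (s x)).trans (y.norm_coe_le_norm m)

lemma swp_apply (s : C(X, X)) (y : ℕ →ᵇ C(X, ℂ)) (m : ℕ) (x : X) : swp s y m x = y m (s x) := rfl

lemma exists_real_lift {Q : Type} [CStarAlgebra Q] (π : (ℕ →ᵇ C(X, ℂ)) →⋆ₐ[ℂ] Q)
    (hs : Function.Surjective π) (e : Q) (he : star e = e) :
    ∃ y : ℕ →ᵇ C(X, ℂ), π y = e ∧ star y = y := by
  obtain ⟨x, hx⟩ := hs e
  refine ⟨(1 / 2 : ℂ) • (x + star x), ?_, ?_⟩
  · rw [map_smul, map_add, map_star, hx, he, ← two_smul ℂ e, smul_smul]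
    norm_num
  · rw [star_smul, star_add, star_star, add_comm]
    congr 1
    simp

lemma real_of_star {y : ℕ →ᵇ C(X, ℂ)} (hy : star y = y) (m : ℕ) (x : X) :
    (((y m x).re : ℝ) : ℂ) = y m x := by
  have h1 : star (y m x) = y m x := by
    have h2 : (star y) m x = y m x := by rw [hy]
    exact h2
  exact Complex.conj_eq_iff_re.mp h1

theorem core {Q : Type} [CStarAlgebra Q]
    (π : (ℕ →ᵇ C(X, ℂ)) →⋆ₐ[ℂ] Q) (hs : Function.Surjective π)
    (hk : ∀ x, π x = 0 ↔ Tendsto (fun n => ‖x n‖) atTop (𝓝 0))
    (s : C(X, X)) (hss : ∀ x, s (s x) = x)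
    (b : Q → Q) (hb : ∀ x y : ℕ →ᵇ C(X, ℂ), (∀ m, y m = (x m).comp s) → b (π x) = π y)
    {N : ℕ} (S e : Fin N → Q) (hS : ∀ j, star (S j) = S j) (he : ∀ j, star (e j) = e j)
    (hbS : ∀ j, b (S j) = - S j) (hsum : ∑ j, e j = 1) (hsq : ∀ j, S j * S j = e j * e j)
    (hbu : ∀ f : Fin N → X → ℝ, (∀ j, Continuous (f j)) → (∀ j x, f j (s x) = - f j x) →
      ∃ x, ∀ j, f j x = 0) : False := by
  choose y hy hys using fun j => exists_real_lift π hs (S j) (hS j)
  choose w hw hws using fun j => exists_real_lift π hs (e j) (he j)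
  set z : Fin N → ℕ →ᵇ C(X, ℂ) := fun j => (1 / 2 : ℂ) • (y j - swp s (y j)) with hz
  have hπz : ∀ j, π (z j) = S j := by
    intro j
    have h1 : π (swp s (y j)) = - S j := by
      rw [← hbS j, ← hy j]
      exact (hb (y j) (swp s (y j)) fun m => rfl).symm
    rw [hz]
    simp only
    rw [map_smul, map_sub, hy, h1, sub_neg_eq_add, ← two_smul ℂ (S j), smul_smul]
    norm_num
  have hzv : ∀ j m x, z j m x = (1 / 2 : ℂ) * (y j m x - y j m (s x)) := fun j m x => rfl
  have hodd : ∀ j m x, z j m (s x) = - z j m x := by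
    intro j m x
    rw [hzv, hzv, hss]
    ring
  have hzr : ∀ j m x, (((z j m x).re : ℝ) : ℂ) = z j m x := by
    intro j m x
    have h1 := real_of_star (hys j) m x
    have h2 := real_of_star (hys j) m (s x)
    have h3 : z j m x = (((1 / 2 : ℝ) * ((y j m x).re - (y j m (s x)).re) : ℝ) : ℂ) := by
      rw [hzv, ← h1, ← h2]
      push_cast
      rfl
    rw [h3, Complex.ofReal_re]
  -- common zeros
  have hx : ∀ m, ∃ x, ∀ j, z j m x = 0 := by
    intro m
    obtain ⟨x, hx⟩ := hbu (fun j x => (z j m x).re)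
      (fun j => Complex.continuous_re.comp (z j m).continuous)
      (fun j x => by rw [hodd, Complex.neg_re])
    exact ⟨x, fun j => by rw [← hzr, hx j, Complex.ofReal_zero]⟩
  choose p hp using hx
  have h1 : Tendsto (fun m => ‖(∑ j, w j - 1 : ℕ →ᵇ C(X, ℂ)) m‖) atTop (𝓝 0) := by
    rw [← hk, map_sub, map_sum, map_one, ← hsum, sub_eq_zero]
    exact Finset.sum_congr rfl fun j _ => hw j
  have h2 : Tendsto (fun m => ‖(∑ j, w j * w j - ∑ j, z j * z j : ℕ →ᵇ C(X, ℂ)) m‖) atTop
      (𝓝 0) := by
    rw [← hk, map_sub, map_sum, map_sum, sub_eq_zero]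
    refine Finset.sum_congr rfl fun j _ => ?_
    rw [map_mul, map_mul, hw, hπz, hsq]
  set r : Fin N → ℕ → ℝ := fun j m => (w j m (p m)).re with hr
  have hrw : ∀ j m, ((r j m : ℝ) : ℂ) = w j m (p m) := fun j m => real_of_star (hws j) m (p m)
  have h3 : Tendsto (fun m => ∑ j, r j m) atTop (𝓝 1) := by
    rw [tendsto_iff_norm_sub_tendsto_zero]
    refine squeeze_zero (fun _ => norm_nonneg _) (fun m => ?_) h1
    have h4 : ((∑ j, w j - 1 : ℕ →ᵇ C(X, ℂ)) m) (p m) = ((∑ j, r j m - 1 : ℝ) : ℂ) := by
      have h5 : ((∑ j, w j - 1 : ℕ →ᵇ C(X, ℂ)) m) (p m) = ∑ j, w j m (p m) - 1 := by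
        simp [BoundedContinuousFunction.coe_sub, BoundedContinuousFunction.coe_sum]
      rw [h5]
      push_cast
      rw [Finset.sum_congr rfl fun j _ => hrw j m]
    have h6 := ((∑ j, w j - 1 : ℕ →ᵇ C(X, ℂ)) m).norm_coe_le_norm (p m)
    rw [h4, Complex.norm_real] at h6
    exact h6
  have h4 : Tendsto (fun m => ∑ j, r j m ^ 2) atTop (𝓝 0) := by
    rw [tendsto_iff_norm_sub_tendsto_zero]
    refine squeeze_zero (fun _ => norm_nonneg _) (fun m => ?_) h2
    have h4 : ((∑ j, w j * w j - ∑ j, z j * z j : ℕ →ᵇ C(X, ℂ)) m) (p m) =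
        ((∑ j, r j m ^ 2 - 0 : ℝ) : ℂ) := by
      have h5 : ((∑ j, w j * w j - ∑ j, z j * z j : ℕ →ᵇ C(X, ℂ)) m) (p m) =
          ∑ j, w j m (p m) * w j m (p m) - ∑ j, z j m (p m) * z j m (p m) := by
        simp [BoundedContinuousFunction.coe_sub, BoundedContinuousFunction.coe_sum]
      rw [h5, Finset.sum_eq_zero (s := Finset.univ) (f := fun j => z j m (p m) * z j m (p m))
        fun j _ => by rw [hp m j, mul_zero]]
      push_cast
      rw [Finset.sum_congr rfl fun j _ => by rw [← hrw j m, ← sq]]
    have h6 := ((∑ j, w j * w j - ∑ j, z j * z j : ℕ →ᵇ C(X, ℂ)) m).norm_coe_le_norm (p m)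
    rw [h4, Complex.norm_real] at h6
    exact h6
  have h5 : Tendsto (fun m => (∑ j, r j m) ^ 2) atTop (𝓝 1) := by
    simpa using h3.pow 2
  have h6 : Tendsto (fun m => (N : ℝ) * ∑ j, r j m ^ 2) atTop (𝓝 0) := by
    simpa using h4.const_mul (N : ℝ)
  have h7 := le_of_tendsto_of_tendsto' h5 h6 fun m => by
    have h8 := sq_sum_le_card_mul_sum_sq (s := Finset.univ) (f := fun j : Fin N => r j m)
    rwa [Finset.card_univ, Fintype.card_fin] at h8
  linarith

end Core

/-! ### the example -/

open Pool.Agent.H370R3.SphereTools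

/-- the group -/
abbrev G : Type := ℕ → ℤˣ

/-- the space -/
def X : Type := ∀ n : ℕ, Sph n

instance : TopologicalSpace X := inferInstanceAs (TopologicalSpace (∀ n : ℕ, Sph n))

instance : CompactSpace X := inferInstanceAs (CompactSpace (∀ n : ℕ, Sph n))

instance : T2Space X := inferInstanceAs (T2Space (∀ n : ℕ, Sph n))

/-- the action of a sign on a sphere -/
def sg {n : ℕ} (u : ℤˣ) (x : Sph n) : Sph n := if u = 1 then x else -x

lemma sg_one {n : ℕ} (x : Sph n) : sg 1 x = x := if_pos rfl

lemma sg_neg_one {n : ℕ} (x : Sph n) : sg (-1) x = -x := if_neg (by decide)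

lemma sg_mul {n : ℕ} (u v : ℤˣ) (x : Sph n) : sg (u * v) x = sg u (sg v x) := by
  rcases Int.units_eq_one_or u with rfl | rfl <;> rcases Int.units_eq_one_or v with rfl | rfl
  · rw [one_mul, sg_one, sg_one]
  · rw [one_mul, sg_one]
  · rw [mul_one, sg_one]
  · rw [sg_neg_one, sg_neg_one, neg_neg, neg_mul_neg, one_mul, sg_one]

lemma sg_cont {n : ℕ} : Continuous fun p : ℤˣ × Sph n => sg p.1 p.2 := by
  rw [continuous_prod_of_discrete_left]
  intro u
  rcases Int.units_eq_one_or u with rfl | rfl
  · simp only [sg_one]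
    exact continuous_id
  · simp only [sg_neg_one]
    exact continuous_neg

lemma neg_ne {n : ℕ} (x : Sph n) : -x ≠ x := by
  intro h
  have h1 : -(x : E (n + 1)) = x := congrArg Subtype.val h
  have h2 : (x : E (n + 1)) = 0 := by
    have h4 : (x : E (n + 1)) + x = 0 := by
      nth_rewrite 1 [← h1]
      exact neg_add_cancel _
    rw [← two_smul ℝ] at h4
    exact (smul_eq_zero.mp h4).resolve_left two_ne_zero
  have h3 := x.2
  rw [h2, mem_sphere_zero_iff_norm, norm_zero] at h3
  exact zero_ne_one h3

instance : MulAction G X where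
  smul g x := fun n => sg (g n) (x n)
  one_smul x := funext fun n => sg_one (x n)
  mul_smul g h x := funext fun n => sg_mul (g n) (h n) (x n)

lemma smul_apply (g : G) (x : X) (n : ℕ) : (g • x) n = sg (g n) (x n) := rfl

instance : ContinuousSMul G X where
  continuous_smul := by
    refine continuous_pi fun n => ?_
    have h1 : Continuous fun p : G × X => p.1 n := (continuous_apply n).comp continuous_fst
    have h2 : Continuous fun p : G × X => p.2 n :=
      (continuous_apply (A := fun n => Sph n) n).comp continuous_snd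
    exact sg_cont.comp (h1.prodMk h2)

lemma free (g : G) (x : X) (h : g • x = x) : g = 1 := by
  funext n
  rcases Int.units_eq_one_or (g n) with h1 | h1
  · exact h1
  · have h2 : (g • x) n = x n := by rw [h]
    rw [smul_apply, h1, sg_neg_one] at h2
    exact (neg_ne _ h2).elim

/-- a base point -/
def base : X := fun k => ⟨EuclideanSpace.single 0 1, by
  rw [mem_sphere_zero_iff_norm, PiLp.norm_single, norm_one]⟩

/-- the point with `n`-th coordinate `y`, and the others those of the base point -/
def upd (n : ℕ) (y : Sph n) : X := Function.update (β := fun k => Sph k) base n y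

lemma upd_cont (n : ℕ) : Continuous (upd n) :=
  (continuous_const (y := base)).update (A := fun k => Sph k) n continuous_id

lemma upd_self (n : ℕ) (y : Sph n) : upd n y n = y := Function.update_self _ _ _

lemma upd_of_ne (n : ℕ) (y : Sph n) {k : ℕ} (h : k ≠ n) : upd n y k = base k :=
  Function.update_of_ne h _ _

/-- the projection onto the part where the `n`-th coordinate is `u` -/
def pr (n : ℕ) (u : ℤˣ) : C(G, ℂ) where
  toFun g := if g n = u then 1 else 0
  continuous_toFun := by
    have h : Continuous fun v : ℤˣ => if v = u then (1 : ℂ) else 0 := continuous_of_discreteTopology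
    exact h.comp (continuous_apply n)

lemma pr_apply (n : ℕ) (u : ℤˣ) (g : G) : pr n u g = if g n = u then 1 else 0 := rfl

lemma pr_star (n : ℕ) (u : ℤˣ) : star (pr n u) * pr n u = pr n u := by
  ext g
  rw [ContinuousMap.mul_apply, ContinuousMap.star_apply, pr_apply]
  split_ifs <;> simp

lemma pr_add (n : ℕ) : pr n 1 + pr n (-1) = 1 := by
  ext g
  rw [ContinuousMap.add_apply, pr_apply, pr_apply, ContinuousMap.one_apply]
  rcases Int.units_eq_one_or (g n) with h | h
  · rw [h, if_pos rfl, if_neg (by decide), add_zero]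
  · rw [h, if_pos rfl, if_neg (by decide), zero_add]

lemma pr_mul (n : ℕ) : pr n 1 * pr n (-1) = 0 := by
  ext g
  rw [ContinuousMap.mul_apply, pr_apply, pr_apply, ContinuousMap.zero_apply]
  rcases Int.units_eq_one_or (g n) with h | h
  · rw [h, if_pos rfl, if_neg (by decide), mul_zero]
  · rw [h, if_pos rfl, if_neg (by decide), zero_mul]

/-- the flip in the `n`-th coordinate -/
def fl (n : ℕ) : G := Function.update 1 n (-1)

lemma fl_self (n : ℕ) : fl n n = -1 := Function.update_self _ _ _

lemma fl_inv (n : ℕ) : (fl n)⁻¹ = fl n := by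
  funext k
  rw [Pi.inv_apply]
  rcases Int.units_eq_one_or (fl n k) with h | h <;> rw [h]
  · exact inv_one
  · decide

lemma translate_pr (n : ℕ) (u : ℤˣ) : translate (fl n) (pr n u) = pr n (-u) := by
  ext g
  have h1 : translate (fl n) (pr n u) g = if ((fl n)⁻¹ * g) n = u then 1 else 0 := rfl
  rw [h1, pr_apply, fl_inv, Pi.mul_apply, fl_self, neg_one_mul]
  congr 1
  exact propext neg_eq_iff_eq_neg

/-- **Main theorem.** There are a compact Hausdorff group and a free continuous action on a compact
Hausdorff space such that the induced action on `C(X)` has infinite Rokhlin dimension. -/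
theorem result : ∃ (G : Type) (_ : Group G) (_ : TopologicalSpace G) (_ : IsTopologicalGroup G)
    (_ : CompactSpace G) (_ : T2Space G) (X : Type) (_ : TopologicalSpace X) (_ : CompactSpace X)
    (_ : T2Space X) (_ : MulAction G X) (_ : ContinuousSMul G X),
    (∀ (g : G) (x : X), g • x = x → g = 1) ∧ ∀ d : ℕ, ¬ RokhlinDimLE G X d := by
  refine ⟨G, inferInstance, inferInstance, inferInstance, inferInstance, inferInstance, X,
    inferInstance, inferInstance, inferInstance, inferInstance, inferInstance, free, ?_⟩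
  rintro d ⟨Q, _, π, α, φ, hπ, hα, hφ, heq, -, -, hsum⟩
  obtain ⟨n, hn⟩ : ∃ n, n = d + 1 := ⟨_, rfl⟩
  have hself : ∀ j u, star (φ j (pr n u)) = φ j (pr n u) := by
    intro j u
    obtain ⟨c, hc⟩ := (hφ j).completelyPositive 1 (fun _ => pr n u) (fun _ => 1)
    simp only [Finset.univ_unique, Finset.sum_const, Finset.card_singleton, one_smul, star_one,
      one_mul, mul_one, pr_star] at hc
    rw [hc, star_mul, star_star]
  have hone : ∀ j, φ j 1 = φ j (pr n 1) + φ j (pr n (-1)) := by
    intro j
    rw [← pr_add n, map_add]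
  have hz1 : ∀ j, φ j (pr n 1) * φ j (pr n (-1)) = 0 := by
    intro j
    have h := (hφ j).orderZero (pr n 1) (pr n (-1))
    rw [pr_star, pr_star] at h
    exact h (pr_mul n)
  have hz2 : ∀ j, φ j (pr n (-1)) * φ j (pr n 1) = 0 := by
    intro j
    have h := (hφ j).orderZero (pr n (-1)) (pr n 1)
    rw [pr_star, pr_star] at h
    exact h (by rw [mul_comm]; exact pr_mul n)
  let s : C(X, X) := ⟨fun x => fl n • x, continuous_const_smul (fl n)⟩
  have hss : ∀ x, s (s x) = x := by
    intro x
    show fl n • fl n • x = x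
    have h : fl n * fl n = 1 := by
      conv_lhs => rw [← fl_inv n]
      rw [fl_inv]
      nth_rewrite 1 [← fl_inv n]
      exact inv_mul_cancel _
    rw [← mul_smul, h, one_smul]
  refine core π hπ.surjective hπ.ker s hss (α (fl n)) ?_
    (fun j => φ j (pr n 1) - φ j (pr n (-1))) (fun j => φ j 1) ?_ ?_ ?_ hsum ?_ ?_
  · intro x y hxy
    refine hα (fl n) x y fun m => ?_
    rw [hxy m]
    unfold act
    congr 1
    ext1 x
    show fl n • x = (fl n)⁻¹ • x
    rw [fl_inv]
  · intro j
    simp only [star_sub, hself]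
  · intro j
    simp only [hone, star_add, hself]
  · intro j
    have h1 : φ j (pr n 1) - φ j (pr n (-1)) = φ j (pr n 1 - pr n (-1)) := (map_sub _ _ _).symm
    simp only [h1]
    rw [heq]
    have h2 : translate (fl n) (pr n 1 - pr n (-1)) =
        translate (fl n) (pr n 1) - translate (fl n) (pr n (-1)) := rfl
    rw [h2, translate_pr, translate_pr, neg_neg, map_sub, map_sub]
    abel
  · intro j
    simp only [hone]
    rw [mul_sub, sub_mul, sub_mul, mul_add, add_mul, add_mul, hz1, hz2]
    abel
  · intro f hf hodd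
    obtain ⟨y, hy⟩ := borsuk_ulam (n := n) (m := d + 1) hn.ge
      (fun y j => f j (upd n y)) (continuous_pi fun j => (hf j).comp (upd_cont n)) (by
        intro y
        funext j
        have h1 : upd n (-y) = s (upd n y) := by
          funext k
          show _ = sg (fl n k) (upd n y k)
          by_cases hk : k = n
          · subst hk
            rw [upd_self, upd_self, fl_self, sg_neg_one]
          · have h2 : fl n k = 1 := Function.update_of_ne hk _ _
            rw [upd_of_ne n _ hk, upd_of_ne n _ hk, h2, sg_one]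
        show f j (upd n (-y)) = - f j (upd n y)
        rw [h1, hodd])
    exact ⟨upd n y, fun j => congrFun hy j⟩

end

end Pool.Agent.Results.MP_cd8fef_an.FreeInfiniteRokhlin
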